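import Mathlib

/-!
# MP_ee5996_co, project EC: connected chordal graphs `G` with `I(G) ≅ G`

THEOREM. Let `G` be a finite connected chordal graph in which no vertex lies on two different edges that
are in no triangle (for instance: no bridges). If `I(G) ≅ G`, then `G` is complete.

TIGHT WALK of length `k`: `w 0, ..., w k`, consecutive vertices adjacent, `w i` and `w (i+2)` different and not
adjacent. In a chordal graph tight walks are induced paths (W1), so `k < |V|` (W2). Main point: a tight walk of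
length `k ≥ 1` in `I(G)` gives a tight walk of length `3k - 2` in `G` (ST), since two slides of an i-set with different
`x`, `x'` have a common neighbour `v` of `x`, `x'` which is not adjacent to `y`, `y'` (TB). As `I(G) ≅ G`, a tight walk of length
2 in `G` gives tight walks of length 4, 10, 28, ..., a contradiction (FI). So `G` has none, and is complete.

RULES: row `XX`: file `Pool/Agent/<seat>/EC/XX.lean`, `import Pool.Agent.helper4.EC.Spec`,
`namespace Pool.Agent.helper4.EC`, `universe u`, `theorem XX (h1 : YY_stmt.{u}) .. : XX_stmt.{u}`; auxiliary lemmas `XX_...`.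
-/

set_option autoImplicit false

namespace Pool.Agent.helper4.EC

open Finset

universe u

/-- `S` is an independent dominating set of `G`. -/
def IsIndepDom {V : Type*} (G : SimpleGraph V) (S : Finset V) : Prop :=
  (∀ u ∈ S, ∀ v ∈ S, ¬ G.Adj u v) ∧ ∀ v, v ∉ S → ∃ u ∈ S, G.Adj u v

/-- `S` is an i-set of `G`: an independent dominating set of the smallest size. -/
def IsISet {V : Type*} (G : SimpleGraph V) (S : Finset V) : Prop :=
  IsIndepDom G S ∧ ∀ T, IsIndepDom G T → S.card ≤ T.card

/-- The i-graph of `G`: the vertices are the i-sets; `X` and `Y` are adjacent if they are distinct and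
`Y = (X \ {u}) ∪ {v}` for some `u` in `X` and `v` in `Y` with `u v` an edge of `G`. -/
def iGraph {V : Type*} [DecidableEq V] (G : SimpleGraph V) :
    SimpleGraph {S : Finset V // IsISet G S} where
  Adj X Y := X ≠ Y ∧ ∃ u ∈ X.1, ∃ v ∈ Y.1, G.Adj u v ∧ Y.1 = insert v (X.1.erase u)
  symm := ⟨by
    rintro X Y ⟨hne, u, hu, v, hv, huv, hY⟩
    refine ⟨hne.symm, v, hv, u, hu, huv.symm, ?_⟩
    have hvX : v ∉ X.1 := fun h => X.2.1.1 u hu v h huv
    have hvu : v ≠ u := fun h => by subst h; exact G.loopless.irrefl _ huv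
    rw [hY, Finset.erase_insert, Finset.insert_erase hu]
    simp [hvX]⟩
  loopless := ⟨fun X h => h.1 rfl⟩

/-- Chordal: no induced cycle of length at least 4. -/
def Chordal {V : Type*} (G : SimpleGraph V) : Prop :=
  ∀ n, 4 ≤ n → IsEmpty (SimpleGraph.cycleGraph n ↪g G)

/-- No vertex lies on two different edges that are in no triangle. -/
def SpreadBridges {V : Type*} (G : SimpleGraph V) : Prop :=
  ∀ a b c, G.Adj a b → G.Adj a c → b ≠ c →
    (∃ t, G.Adj t a ∧ G.Adj t b) ∨ ∃ t, G.Adj t a ∧ G.Adj t c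

/-- A tight walk of length `k`. -/
def TW {V : Type*} (G : SimpleGraph V) (k : ℕ) (w : ℕ → V) : Prop :=
  (∀ i, i < k → G.Adj (w i) (w (i + 1))) ∧
    ∀ i, i + 2 ≤ k → w i ≠ w (i + 2) ∧ ¬ G.Adj (w i) (w (i + 2))

/-- No diamond: two common neighbours of adjacent vertices are adjacent. -/
def DF {V : Type*} (G : SimpleGraph V) : Prop :=
  ∀ a b c d, G.Adj a b → G.Adj a c → G.Adj b c → G.Adj a d → G.Adj b d → c ≠ d → G.Adj c d

/-- A slide `x → y` of the set `X` to an i-set. -/
def Sl {V : Type*} [DecidableEq V] (G : SimpleGraph V) (X : Finset V) (x y : V) : Prop :=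
  x ∈ X ∧ y ∉ X ∧ G.Adj x y ∧ IsISet G (insert y (X.erase x))

/-- Row W1 (short, medium), no hypothesis. Strong induction on `j - i`. `j = i + 2`: definition. `j ≥ i + 3`: `w i = w j` is impossible since
`w j` is adjacent to `w (j-1)` and `w i` is not. If `w i`, `w j` were adjacent, then `t ↦ w (i + t)` (`t : Fin (j - i + 1)`) would be an
embedding of `cycleGraph (j - i + 1)` (all other pairs at distance at least 2 are different and not adjacent by induction). -/
def W1_stmt : Prop := ∀ (V : Type u) (G : SimpleGraph V), Chordal G → ∀ (k : ℕ) (w : ℕ → V), TW G k w →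
  ∀ i j, i + 2 ≤ j → j ≤ k → w i ≠ w j ∧ ¬ G.Adj (w i) (w j)

/-- Row W2 (short), `theorem W2 (h1 : W1_stmt.{u})`. `w` is injective on `0, ..., k`. -/
def W2_stmt : Prop := ∀ (V : Type u) [Fintype V] (G : SimpleGraph V), Chordal G →
  ∀ (k : ℕ) (w : ℕ → V), TW G k w → k < Fintype.card V

/-- Row C4 (short), `theorem C4 (h1 : W1_stmt.{u})`: no induced cycles of length 4 and 5, by W1 for `a, b, c, d` and `a, b, c, d, e`. -/
def C4_stmt : Prop := ∀ (V : Type u) (G : SimpleGraph V), Chordal G →
  (∀ a b c d, G.Adj a b → G.Adj b c → G.Adj c d → G.Adj d a → a ≠ c → b ≠ d → G.Adj a c ∨ G.Adj b d) ∧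
  ∀ a b c d e, G.Adj a b → G.Adj b c → G.Adj c d → G.Adj d e → G.Adj e a →
    a ≠ c → ¬ G.Adj a c → b ≠ d → ¬ G.Adj b d → c ≠ e → ¬ G.Adj c e → False

/-- Row SA (short), no hypothesis: adjacency in `iGraph`. -/
def SA_stmt : Prop := ∀ (V : Type u) [DecidableEq V] (G : SimpleGraph V) (X Y : {S : Finset V // IsISet G S}),
  (iGraph G).Adj X Y ↔ ∃ x y, Sl G X.1 x y ∧ Y.1 = insert y (X.1.erase x)

/-- Row LN (short), no hypothesis. `insert z (X.erase x)` dominates `y`, and `X.erase x` does not (`insert y (X.erase x)` is independent). -/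
def LN_stmt : Prop := ∀ (V : Type u) [DecidableEq V] (G : SimpleGraph V) (X : Finset V) (x y z : V),
  Sl G X x y → Sl G X x z → y ≠ z → G.Adj y z

/-- Row TR (short, medium), `theorem TR (h1 : SA_stmt.{u})`. Let `T = X - a + b` (slide `a → b` of `X`). If `a = x`, put `z = b`. If `a ≠ x`: `Y = X - x + y`, `a ∈ Y \ T`, and
`Y \ T` has at most one element, so `y ∈ T`, `y = b`; then `x, y ∈ T` are adjacent, a contradiction. -/
def TR_stmt : Prop := ∀ (V : Type u) [DecidableEq V] (G : SimpleGraph V) (X Y T : {S : Finset V // IsISet G S}) (x y : V),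
  Sl G X.1 x y → Y.1 = insert y (X.1.erase x) → (iGraph G).Adj T X → (iGraph G).Adj T Y →
    ∃ z, z ≠ y ∧ Sl G X.1 x z ∧ T.1 = insert z (X.1.erase x)

/-- Row DI (short), `theorem DI (h1 : SA_stmt.{u}) (h2 : LN_stmt.{u}) (h3 : TR_stmt.{u})`. Adjacent `X`, `Y`, common neighbours `Z`, `T`: by `TR`
`Z = X - x + z`, `T = X - x + t`, `z ≠ t`, so `z`, `t` are adjacent by `LN`; hence `Z`, `T` are adjacent. -/
def DI_stmt : Prop := ∀ (V : Type u) [DecidableEq V] (G : SimpleGraph V), DF (iGraph G)

/-- Row CF (medium), `theorem CF (h1 : SA_stmt.{u}) (h2 : C4_stmt.{u})`. `Z = X - x - x' + y + y'` is independent with `#Z = #X`. If it is dominating, then it is an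
i-set, and `X`, `X - x + y`, `Z`, `X - x' + y'` is an induced 4-cycle of `iGraph G` (opposite sets differ in two elements), against `C4`. So some `v ∉ Z` has no
neighbour in `Z`. `X - x + y` contains or dominates `v`, by `x'` only; `v = x'` is impossible (`x'` is adjacent to `y'`). So `x'`, and in the same way `x`, is adjacent to `v`. -/
def CF_stmt : Prop := ∀ (V : Type u) [DecidableEq V] (G : SimpleGraph V), Chordal (iGraph G) →
  ∀ (X : Finset V) (x y x' y' : V), IsISet G X → Sl G X x y → Sl G X x' y' → x ≠ x' → ¬ G.Adj y y' →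
    ∃ v, G.Adj x v ∧ G.Adj x' v ∧ ¬ G.Adj y v ∧ ¬ G.Adj y' v

/-- Row TB (medium), `theorem TB (h1 : SA_stmt.{u}) (h2 : C4_stmt.{u}) (h3 : LN_stmt.{u}) (h4 : TR_stmt.{u}) (h5 : CF_stmt.{u})`. If `y`, `y'` are not adjacent: `CF`. Suppose they are. Note `x, y'` are not adjacent
(both in `X - x' + y'`), `x', y` are not adjacent. `SpreadBridges` for `X`, `X - x + y`, `X - x' + y'` (different: `x'` is in the first only) gives, say, `T` adjacent to `X` and `X - x + y`; by `TR`
`T = X - x + z`, slide `x → z`, `z ≠ y`; `y, z` adjacent by `LN`. `z`, `y'` are not adjacent: otherwise `DF` for `y, z, x, y'` makes `x, y'` adjacent. So `CF` for `x → z`, `x' → y'` gives `v` adjacent to `x, x'`, not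
to `z, y'`. If `v`, `y` are adjacent: `v, y, y', x'` is an induced 4-cycle. If not: `v, x, y, y', x'` is an induced 5-cycle. The case of the other alternative is symmetric. -/
def TB_stmt : Prop := ∀ (V : Type u) [DecidableEq V] (G : SimpleGraph V), Chordal G → Chordal (iGraph G) → DF G →
  SpreadBridges (iGraph G) →
  ∀ (X : Finset V) (x y x' y' : V), IsISet G X → Sl G X x y → Sl G X x' y' → x ≠ x' →
    ∃ v, G.Adj x v ∧ G.Adj x' v ∧ ¬ G.Adj y v ∧ ¬ G.Adj y' v

/-- Row S3 (medium), `theorem S3 (h1 : SA_stmt.{u}) (h2 : TB_stmt.{u})`. Three consecutive sets `X`, `Y = X - p + q`, `Z = Y - p' + q'`. If `p' = q`, then `Z = X - p + q'`; `q' = p` gives `Z = X`; otherwise `q' ∉ X`, `X` dominates `q'`, but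
`X.erase p ⊆ Z` does not, so `p`, `q'` are adjacent and `X`, `Z` are adjacent. So `p' ≠ q`; slides `q → p` and `p' → q'` of `Y`; `TB`. The rest: `p' ∈ X`, `p ∈ X`, `p ≠ p'`; `q, q' ∈ Z`, `q ≠ q'`; `q, p' ∈ Y`; `v ≠ p` since `v` is adjacent
to `p'` and `p` is not, `v ≠ q'` since `v` is adjacent to `q` and `q'` is not. -/
def S3_stmt : Prop := ∀ (V : Type u) [DecidableEq V] (G : SimpleGraph V), Chordal G → Chordal (iGraph G) → DF G →
  SpreadBridges (iGraph G) →
  ∀ (X Y Z : Finset V) (p q p' q' : V), IsISet G X → IsISet G Y → IsISet G Z → Sl G X p q → Y = insert q (X.erase p) →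
    Sl G Y p' q' → Z = insert q' (Y.erase p') → X ≠ Z → (∀ hX : IsISet G X, ∀ hZ : IsISet G Z, ¬ (iGraph G).Adj ⟨X, hX⟩ ⟨Z, hZ⟩) →
    ∃ v, G.Adj q v ∧ G.Adj v p' ∧ p ≠ v ∧ ¬ G.Adj p v ∧ v ≠ q' ∧ ¬ G.Adj v q' ∧ q ≠ p' ∧ ¬ G.Adj q p'

/-- Row ST (medium), `theorem ST (h1 : SA_stmt.{u}) (h2 : S3_stmt.{u})`. Choose `p i`, `q i` (`i ≤ k`) with `W (i+1) = W i - p i + q i` (SA), and `v i` (`i < k`) by S3. `w (3i) = p i`, `w (3i+1) = q i`, `w (3i+2) = v i`. -/
def ST_stmt : Prop := ∀ (V : Type u) [DecidableEq V] (G : SimpleGraph V), Chordal G → Chordal (iGraph G) → DF G →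
  SpreadBridges (iGraph G) →
  ∀ (k : ℕ) (W : ℕ → {S : Finset V // IsISet G S}), TW (iGraph G) (k + 1) W → ∃ w, TW G (3 * k + 1) w

/-- Row FI (medium), `theorem FI (h1 : W2_stmt.{u}) (h2 : DI_stmt.{u}) (h3 : ST_stmt.{u})`. By `φ` all properties go from `G` to `iGraph G` and back (`Chordal (iGraph G)`, `DF G` from `DI`, `SpreadBridges (iGraph G)`, `TW`). If `TW G 2 w` for
some `w`: induction gives tight walks of every length (`k + 1 → 3 k + 1 ≥ k + 2` for `k ≥ 1`; a tight walk of length `k` is one of each smaller length), against `W2`. So any two different neighbours of a vertex are adjacent, and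
by induction on a walk any two different vertices are adjacent. -/
def FI_stmt : Prop := ∀ (V : Type u) [Fintype V] [DecidableEq V] (G : SimpleGraph V), G.Connected → Chordal G → SpreadBridges G →
  Nonempty (iGraph G ≃g G) → G = ⊤

end Pool.Agent.helper4.EC
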